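import Pool.Agent.Q193.ST.Graph
import Pool.Agent.Q193.ST.IMM2
import Pool.Agent.Q179.ST.IMM1

/-!
# Every C^1 semi-torse in three-space is a torse (MP_88a170_gt, Q1: yes)

A surface is a C^1 immersion `φ` of a two-dimensional C^1 manifold `M` (any topology, no curvature
hypothesis) in Euclidean three-space. A stationary segment is a path `σ` of `M`, mapped by `φ` onto a
straight segment of positive length, along which the (affine) tangent plane is the same. Semi-torse:
every point is an endpoint of a stationary segment. Torse: every point is an interior point of one.

Proof. Locally the surface is the graph of a C^1 function `f` on a plane domain and stationary segments
are the segments on which the gradient is constant. Triangle lemma: if two sides of a triangle are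
stationary, the triangle is flat. Its proof: level components of the tangent plane map reach the third
side; for a point `e` of the third side the points joined to both sides of `e` form a connected set
(unicoherence), their chords are nested (crossing lemma) and bitangent to the graph of the restriction
of `f`, so the slopes form a null set and hence a point. By Baire's theorem the bad set contains a
portion with stationary segments of uniform length; there the triangle lemma, a maximality argument and
a connectedness argument with the directions of stationary segments produce segments through every
point.
-/

open scoped Manifold ContDiff

namespace Pool.Agent.Results.MP_88a170_gt.SemiTorseIsTorse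

open Pool.Agent.Q193.ST

/-- Every C^1 semi-torse is a torse. -/
theorem result {M : Type*} [TopologicalSpace M] [ChartedSpace E2 M] [IsManifold 𝓘(ℝ, E2) 1 M]
    (φ : M → E3) (hφ : IsImm φ) : SemiTorse φ → Torse φ :=
  t_IMM2 Pool.Agent.Q179.ST.t_IMM1 graph M φ hφ

end Pool.Agent.Results.MP_88a170_gt.SemiTorseIsTorse
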